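import Pool.Agent.helper54.UG.Spec

/-!
# Project ug, row FFA
-/

set_option autoImplicit false

namespace Pool.Agent.UG

open Matrix Pool.Agent.H48SL

theorem FFA (hEXC : EXC_stmt) : FFA_stmt := by
  intro n H X hX
  refine ⟨?_, ?_, ?_, ?_, ?_⟩
  · intro h
    unfold Ff
    rw [← mulVec_mulVec, ← mulVec_mulVec, hX.kill, mulVec_zero]
  · intro h
    exact (hEXC (n + 1) h (X _) (hX.nil _)).1
  · intro s h hs
    unfold Ff
    have h1 : qg (s * h)⁻¹ = qg h⁻¹ * qg s⁻¹ := by rw [_root_.mul_inv_rev, qg_mul]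
    have h2 : qg s⁻¹ *ᵥ e0 n = e0 n := fx_inv hs
    rw [h1, ← mulVec_mulVec, h2, qg_mul]
    simp only [Matrix.mul_assoc]
  · intro h hh
    obtain ⟨k, hk, g, hg, hge⟩ := hX.lat (qg h⁻¹ *ᵥ e0 n)
    refine ⟨k, hk, h * g * h⁻¹, H.mul_mem (H.mul_mem hh hg) (H.inv_mem hh), ?_⟩
    have hnil : IsNilpotent ((k : ℚ) • X (qg h⁻¹ *ᵥ e0 n)) := (hX.nil _).smul _
    have h1 := (hEXC (n + 1) h _ hnil).2
    have h2 : qg h * ((k : ℚ) • X (qg h⁻¹ *ᵥ e0 n)) * qg h⁻¹ = (k : ℚ) • Ff X h := by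
      unfold Ff
      rw [Matrix.mul_smul, Matrix.smul_mul]
    rw [qg_mul, qg_mul, hge, ← h1, h2]
  · intro i j
    unfold Ff
    simp only [Matrix.mul_apply]
    refine IsPolyQ.sum _ _ fun l _ => IsPolyQ.mul (IsPolyQ.sum _ _ fun m _ =>
      (IsPolyQ.entry i m).mul ?_) (IsPolyQ.entry_inv l j)
    obtain ⟨P, hP⟩ := hX.poly m l
    have h1 : (fun g : SLZ (n + 1) => X (qg g⁻¹ *ᵥ e0 n) m l) =
        fun g => MvPolynomial.eval (fun i => qg g⁻¹ i 0) P := by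
      funext g
      rw [hP]
      congr 1
      congr 1
      funext i
      exact mulVec_e0 _ i
    rw [h1]
    exact IsPolyQ.evalP (fun i g => qg g⁻¹ i 0) (fun i => IsPolyQ.entry_inv i 0) P

end Pool.Agent.UG
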